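import Pool.Agent.Y782.UG.Stm

set_option autoImplicit false

open MeasureTheory ProbabilityTheory Filter Topology
open scoped ENNReal BigOperators

namespace Pool.Agent.Y344.UG

open Pool.Agent.Y782.UG

theorem q1 : S_Q1 := by
  intro Δ ph _ h1 h2 lam m r D F hT
  have hΔ : 1 < Δ + 1 := by
    by_contra hc
    have h : {k : Fin (Δ + 1) | (k : ℕ) < 1} = Set.univ := by
      apply Set.eq_univ_of_forall
      intro k
      have := k.isLt
      show (k : ℕ) < 1
      omega
    rw [h, measure_univ] at h1
    exact one_ne_zero h1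
  set o : Fin (Δ + 1) := ⟨1, hΔ⟩ with ho
  have hm : m (fun _ => o) = 0 := by
    by_contra hne
    have hpos : 0 < m (fun _ => o) := lt_of_le_of_ne (hT.m0 _) (Ne.symm hne)
    have h := hT.rc (fun _ => o) ⟨0, by simp [nch, ho], hpos⟩
    exact hne (hT.Fm _ h.1)
  have hsub : {u : Tr Δ | 0 < m u} ⊆ ⋃ w : List ℕ, (fun u : Tr Δ => u w) ⁻¹' {k | (k : ℕ) ≠ 1} := by
    intro u hu
    by_contra hc
    have hc' : ∀ w, (u w : ℕ) = 1 := by
      intro w
      by_contra hw
      exact hc (Set.mem_iUnion.2 ⟨w, hw⟩)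
    have hu' : u = fun _ => o := by
      funext w
      exact Fin.ext (hc' w)
    have hu2 : 0 < m u := hu
    rw [hu', hm] at hu2
    exact lt_irrefl _ hu2
  refine measure_mono_null hsub (measure_iUnion_null ?_)
  intro w
  have hmp := measurePreserving_eval_infinitePi (fun _ : List ℕ => ph) w
  have := hmp.measure_preimage (s := {k : Fin (Δ + 1) | (k : ℕ) ≠ 1})
    (MeasurableSet.nullMeasurableSet (Set.toFinite _).measurableSet)
  rw [h2] at this
  exact this

end Pool.Agent.Y344.UG
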